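import Pool.Agent.helper82.SC.SpecC

/-! # sp: Cardy part, module CCON: the discrete contour with error -/

namespace Pool.Agent.helper82.SC

open Relation Filter Topology Complex MeasureTheory
open scoped Interval

theorem CON_tau : 1 + 2 * tau ^ 2 = -(I * (Real.sqrt 3 : ℂ)) := by
  have h3 : Real.sqrt 3 * Real.sqrt 3 = 3 := Real.mul_self_sqrt (by norm_num)
  apply Complex.ext
  · simp [tau, pow_two]
    nlinarith
  · simp [tau, pow_two]
    ring

theorem CON_tau_norm : ‖tau ^ 2‖ = 1 := by
  have h3 : Real.sqrt 3 * Real.sqrt 3 = 3 := Real.mul_self_sqrt (by norm_num)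
  have h1 : ‖tau‖ ^ 2 = 1 := by
    rw [← Complex.normSq_eq_norm_sq, Complex.normSq_apply]
    simp only [tau]
    nlinarith
  rw [norm_pow, h1]

theorem CON_pd_hor (i j : ℤ) : pd (hor i j) = ⟨i + 1 / 2 + j / 2, Real.sqrt 3 / 2 * j⟩ := by
  apply Complex.ext
  · simp [pd, hor, S, ps]
    ring
  · simp [pd, hor, S, ps]

theorem CON_pd_sl (i j : ℤ) :
    pd (((i, j), false), 2) = ⟨i + 1 / 4 + j / 2, Real.sqrt 3 / 2 * (j + 1 / 2)⟩ := by
  apply Complex.ext
  · simp [pd, S, ps]
    ring
  · simp [pd, S, ps]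
    ring

theorem CON_norm (a b c d : ℝ) (h1 : |a - c| ≤ 1) (h2 : |b - d| ≤ 3 / 2) :
    ‖(⟨a, Real.sqrt 3 / 2 * b⟩ : ℂ) - ⟨c, Real.sqrt 3 / 2 * d⟩‖ ≤ 3 := by
  have h3 : Real.sqrt 3 ≤ 2 := by
    rw [Real.sqrt_le_left (by norm_num)]
    norm_num
  refine le_trans (Complex.norm_le_abs_re_add_abs_im _) ?_
  simp only [Complex.sub_re, Complex.sub_im]
  have h4 : Real.sqrt 3 / 2 * b - Real.sqrt 3 / 2 * d = Real.sqrt 3 / 2 * (b - d) := by ring
  rw [h4, abs_mul, abs_of_nonneg (by positivity : 0 ≤ Real.sqrt 3 / 2)]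
  have h5 : Real.sqrt 3 / 2 * |b - d| ≤ 1 * (3 / 2) := by
    apply mul_le_mul (by linarith) h2 (abs_nonneg _) (by norm_num)
  linarith

/-- the contribution of one end of a double strip -/
theorem CON_end (G : Dart → ℂ) (a r : ℤ) (ε : ℝ)
    (h1 : ‖G (hor (a - 1) (r + 1)) - G (hor a r)‖ ≤ ε)
    (h2 : ‖G (((a, r), false), 2) - G (hor a r)‖ ≤ ε)
    (h3 : ‖G (((a - 1, r + 1), false), 2) - G (hor a r)‖ ≤ ε) :
    ‖G (hor (a - 1) (r + 1)) + tau ^ 2 * (G (((a, r), false), 2) + G (((a - 1, r + 1), false), 2)) +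
      I * (Real.sqrt 3 : ℂ) * G (hor a r)‖ ≤ 3 * ε := by
  have e : G (hor (a - 1) (r + 1)) + tau ^ 2 * (G (((a, r), false), 2) +
      G (((a - 1, r + 1), false), 2)) + I * (Real.sqrt 3 : ℂ) * G (hor a r) =
      (G (hor (a - 1) (r + 1)) - G (hor a r)) + tau ^ 2 * (G (((a, r), false), 2) - G (hor a r)) +
      tau ^ 2 * (G (((a - 1, r + 1), false), 2) - G (hor a r)) := by
    have := CON_tau
    linear_combination (G (hor a r)) * this
  rw [e]
  refine le_trans (norm_add_le _ _) ?_
  refine le_trans (add_le_add (norm_add_le _ _) le_rfl) ?_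
  rw [norm_mul, norm_mul, CON_tau_norm]
  linarith

theorem CON (hCE : CE_stmt) : CON_stmt := by
  intro G i₀ L K j ε hε hsym hloc hosc
  set A : ℕ → ℂ := fun k => ∑ l ∈ Finset.range L, G (hor (i₀ - k + l) (j + 2 * k)) with hA
  have hA0 : (∑ k ∈ Finset.range L, G (hor (i₀ + k) j)) = A 0 := by
    rw [hA]
    refine Finset.sum_congr rfl fun l _ => ?_
    simp
  have htel : A 0 - A K = ∑ k ∈ Finset.range K, (A k - A (k + 1)) :=
    (Finset.sum_range_sub' A K).symm
  have hstep : ∀ k ∈ Finset.range K, ‖(A k - A (k + 1)) + I * (Real.sqrt 3 : ℂ) *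
      (G (hor (i₀ - k + L) (j + 2 * k)) - G (hor (i₀ - k) (j + 2 * k)))‖ ≤ 6 * ε := by
    intro k hk
    rw [Finset.mem_range] at hk
    have h1 := hCE G (i₀ - k) L (j + 2 * k) hsym
      (fun i hi1 hi2 b => by
        have := hloc k i b false hk
        simp only [Bool.false_eq_true, if_false, add_zero] at this
        exact this ⟨hi1, hi2⟩)
      (fun i hi1 hi2 b => by
        have := hloc k i b true hk
        simp only [if_true] at this
        exact this ⟨hi1, hi2⟩)
    have h2 : A (k + 1) = ∑ l ∈ Finset.range L, G (hor (i₀ - k - 1 + l) (j + 2 * k + 2)) := by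
      rw [hA]
      refine Finset.sum_congr rfl fun l _ => ?_
      have e1 : i₀ - ((k + 1 : ℕ) : ℤ) + l = i₀ - k - 1 + l := by push_cast; ring
      have e2 : j + 2 * ((k + 1 : ℕ) : ℤ) = j + 2 * k + 2 := by push_cast; ring
      rw [e1, e2]
    have hp : ∀ a : ℤ, i₀ - k ≤ a → a ≤ i₀ - k + L →
        ‖G (hor (a - 1) (j + 2 * k + 1)) + tau ^ 2 * (G (((a, j + 2 * k), false), 2) +
          G (((a - 1, j + 2 * k + 1), false), 2)) +
          I * (Real.sqrt 3 : ℂ) * G (hor a (j + 2 * k))‖ ≤ 3 * ε := by
      intro a ha1 ha2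
      apply CON_end
      · apply hosc k _ _ hk
        · right; rfl
        · left; rfl
        · show i₀ - k - 1 ≤ a - 1
          omega
        · show a - 1 ≤ i₀ - k + L
          omega
        · show i₀ - k - 1 ≤ a
          omega
        · show a ≤ i₀ - k + L
          omega
        · rw [CON_pd_hor, CON_pd_hor]
          apply CON_norm
          · push_cast
            rw [abs_le]
            constructor <;> linarith
          · push_cast
            rw [abs_le]
            constructor <;> linarith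
      · apply hosc k _ _ hk
        · left; rfl
        · left; rfl
        · show i₀ - k - 1 ≤ a
          omega
        · show a ≤ i₀ - k + L
          omega
        · show i₀ - k - 1 ≤ a
          omega
        · show a ≤ i₀ - k + L
          omega
        · rw [CON_pd_hor, CON_pd_sl]
          apply CON_norm
          · push_cast
            rw [abs_le]
            constructor <;> linarith
          · push_cast
            rw [abs_le]
            constructor <;> linarith
      · apply hosc k _ _ hk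
        · right; rfl
        · left; rfl
        · show i₀ - k - 1 ≤ a - 1
          omega
        · show a - 1 ≤ i₀ - k + L
          omega
        · show i₀ - k - 1 ≤ a
          omega
        · show a ≤ i₀ - k + L
          omega
        · rw [CON_pd_hor, CON_pd_sl]
          apply CON_norm
          · push_cast
            rw [abs_le]
            constructor <;> linarith
          · push_cast
            rw [abs_le]
            constructor <;> linarith
    have hl := hp (i₀ - k) le_rfl (by omega)
    have hr := hp (i₀ - k + L) (by omega) le_rfl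
    have e3 : i₀ - (k : ℤ) + L - 1 = i₀ - k - 1 + L := by ring
    rw [e3] at hr
    have h3 : (A k - A (k + 1)) + I * (Real.sqrt 3 : ℂ) *
      (G (hor (i₀ - k + L) (j + 2 * k)) - G (hor (i₀ - k) (j + 2 * k))) =
      (G (hor (i₀ - k - 1 + L) (j + 2 * k + 1)) + tau ^ 2 * (G (((i₀ - k + L, j + 2 * k), false), 2) +
          G (((i₀ - k - 1 + L, j + 2 * k + 1), false), 2)) +
          I * (Real.sqrt 3 : ℂ) * G (hor (i₀ - k + L) (j + 2 * k))) -
      (G (hor (i₀ - k - 1) (j + 2 * k + 1)) + tau ^ 2 * (G (((i₀ - k, j + 2 * k), false), 2) +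
          G (((i₀ - k - 1, j + 2 * k + 1), false), 2)) +
          I * (Real.sqrt 3 : ℂ) * G (hor (i₀ - k) (j + 2 * k))) := by
      rw [h2]
      have hAk : A k = ∑ l ∈ Finset.range L, G (hor (i₀ - k + l) (j + 2 * k)) := rfl
      rw [hAk]
      linear_combination h1
    rw [h3]
    refine le_trans (norm_sub_le _ _) ?_
    linarith
  rw [hA0]
  have hAK : (∑ k ∈ Finset.range L, G (hor (i₀ - K + k) (j + 2 * K))) = A K := rfl
  rw [hAK, htel, Finset.mul_sum, ← Finset.sum_add_distrib]
  refine le_trans (norm_sum_le_of_le _ hstep) ?_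
  rw [Finset.sum_const, Finset.card_range, nsmul_eq_mul]
  have : 0 ≤ (K : ℝ) * ε := by positivity
  nlinarith

end Pool.Agent.helper82.SC
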