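import Pool.Agent.helper82.SC.SpecB

/-! # sp: Cardy part, module CSQP: the Poincare lemma for the square -/

namespace Pool.Agent.helper82.SC

open Relation Filter Topology

/-- partial sums of the horizontal sides -/
def SQP_c (h : ℤ → ℤ → ZMod 2) (n : ℕ) (v : V) : ZMod 2 :=
  ∑ k ∈ Finset.range (v.1 + (n + 1)).toNat, h (-(n + 1) + (k : ℤ)) v.2

theorem SQP_c_left (h : ℤ → ℤ → ZMod 2) (n : ℕ) (i j : ℤ) (hi : i ≤ -((n : ℤ) + 1)) :
    SQP_c h n (i, j) = 0 := by
  unfold SQP_c
  have : (i + ((n : ℤ) + 1)).toNat = 0 := by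
    rw [Int.toNat_eq_zero]
    omega
  rw [this, Finset.range_zero, Finset.sum_empty]

theorem SQP_c_succ (h : ℤ → ℤ → ZMod 2) (n : ℕ)
    (h0 : ∀ i j, i < -((n : ℤ) + 1) → h i j = 0) (i j : ℤ) :
    SQP_c h n (i + 1, j) = SQP_c h n (i, j) + h i j := by
  by_cases hi : i < -((n : ℤ) + 1)
  · rw [SQP_c_left h n (i + 1) j (by omega), SQP_c_left h n i j (by omega), h0 i j hi, add_zero]
  · unfold SQP_c
    have e1 : (i + 1 + ((n : ℤ) + 1)).toNat = (i + ((n : ℤ) + 1)).toNat + 1 := by omega
    rw [e1, Finset.sum_range_succ]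
    have e2 : -((n : ℤ) + 1) + (((i + ((n : ℤ) + 1)).toNat : ℕ) : ℤ) = i := by omega
    rw [e2]

theorem SQP : SQP_stmt := by
  intro n hn ψ hev hsym hout
  have htop := top_le n
  set h : ℤ → ℤ → ZMod 2 := fun i j => ψ (((i, j), false), 0) with hh
  set s : ℤ → ℤ → ZMod 2 := fun i j => ψ (((i, j), false), 2) with hs
  set e : ℤ → ℤ → ZMod 2 := fun i j => ψ (((i, j), false), 1) with he
  have hT0 : ∀ i j, ψ (((i, j), true), 0) = h i (j + 1) := by
    intro i j
    rw [← hsym]
    rfl
  have hT1 : ∀ i j, ψ (((i, j), true), 1) = e i j := by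
    intro i j
    rw [← hsym]
    rfl
  have hT2 : ∀ i j, ψ (((i, j), true), 2) = s (i + 1) j := by
    intro i j
    rw [← hsym]
    rfl
  have hup : ∀ i j, h i j + e i j + s i j = 0 := fun i j => hev ((i, j), false)
  have hdn : ∀ i j, h i (j + 1) + e i j + s (i + 1) j = 0 := by
    intro i j
    have := hev ((i, j), true)
    rw [hT0, hT1, hT2] at this
    exact this
  -- vanishing
  have hh0 : ∀ i j, (i, j) ∉ Usq n → (i + 1, j) ∉ Usq n → h i j = 0 := by
    intro i j h1 h2
    exact hout (((i, j), false), 0) h1 h2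
  have hs0 : ∀ i j, (i, j) ∉ Usq n → (i, j + 1) ∉ Usq n → s i j = 0 := by
    intro i j h1 h2
    exact hout (((i, j), false), 2) h2 h1
  have hleft : ∀ i j : ℤ, i ≤ -((n : ℤ) + 1) → ((i, j) : V) ∉ Usq n := by
    intro i j hi hm
    rw [mem_Usq] at hm
    simp only at hm
    omega
  have hc1 : ∀ i j, SQP_c h n (i + 1, j) = SQP_c h n (i, j) + h i j :=
    SQP_c_succ h n (fun i j hi => hh0 i j (hleft i j (by omega)) (hleft _ j (by omega)))
  have k1 : ∀ a b c d f : ZMod 2, a + b + c = 0 → d + b + f = 0 → f = c + a + d := by decide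
  have k2 : ∀ a b c d : ZMod 2, a + b + c + d = a + c + (b + d) := by decide
  have hc2 : ∀ i j, s i j = SQP_c h n (i, j) + SQP_c h n (i, j + 1) := by
    intro i j
    by_cases hi : i ≤ -((n : ℤ) + 1)
    · rw [SQP_c_left h n i j hi, SQP_c_left h n i (j + 1) hi, hs0 i j (hleft _ _ hi) (hleft _ _ hi),
        add_zero]
    · have hi' : -((n : ℤ) + 1) ≤ i := by omega
      clear hi
      induction i, hi' using Int.le_induction with
      | base =>
        rw [SQP_c_left h n _ j le_rfl, SQP_c_left h n _ (j + 1) le_rfl,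
          hs0 _ j (hleft _ _ le_rfl) (hleft _ _ le_rfl), add_zero]
      | succ m hm ih =>
        rw [k1 _ _ _ _ _ (hup m j) (hdn m j), ih, hc1, hc1]
        exact k2 _ _ _ _
  have k3 : ∀ a b c x : ZMod 2, a + x + (b + c) = 0 → x = b + a + c := by decide
  have k4 : ∀ a b : ZMod 2, b = a + (a + b) := by decide
  have hh1 : ∀ i j, h i j = SQP_c h n (i, j) + SQP_c h n (i + 1, j) := by
    intro i j
    rw [hc1]
    exact k4 _ _
  have hc3 : ∀ i j, e i j = SQP_c h n (i + 1, j) + SQP_c h n (i, j + 1) := by
    intro i j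
    have := hup i j
    rw [hc2 i j] at this
    rw [k3 _ _ _ _ this, hc1]
  refine ⟨SQP_c h n, ?_, ?_⟩
  · -- vanishing outside
    have hconst : ∀ (j a : ℤ), (∀ b, a ≤ b → ((b, j) : V) ∉ Usq n) → ∀ b, a ≤ b →
        SQP_c h n (b, j) = SQP_c h n (a, j) := by
      intro j a ha b hb
      induction b, hb using Int.le_induction with
      | base => rfl
      | succ m hm ih =>
        rw [hc1, ih, hh0 m j (ha m hm) (ha (m + 1) (by omega)), add_zero]
    have hrow : ∀ j : ℤ, (j < 0 ∨ (top n : ℤ) < j) → ∀ i, SQP_c h n (i, j) = 0 := by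
      intro j hj i
      have hall : ∀ b : ℤ, ((b, j) : V) ∉ Usq n := by
        intro b hm
        rw [mem_Usq] at hm
        simp only at hm
        omega
      by_cases hi : i ≤ -((n : ℤ) + 1)
      · exact SQP_c_left h n i j hi
      · rw [hconst j (-((n : ℤ) + 1)) (fun b _ => hall b) i (by omega), SQP_c_left h n _ j le_rfl]
    have hR : ∀ m : ℕ, (m : ℤ) ≤ top n + 1 → SQP_c h n ((n : ℤ) + 1, (top n : ℤ) + 1 - m) = 0 := by
      intro m
      induction m with
      | zero =>
        intro _
        exact hrow _ (Or.inr (by omega)) _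
      | succ m ih =>
        intro hm
        have h1 := ih (by omega)
        have h2 := hc2 ((n : ℤ) + 1) ((top n : ℤ) + 1 - ((m + 1 : ℕ) : ℤ))
        have h3 : (top n : ℤ) + 1 - ((m + 1 : ℕ) : ℤ) + 1 = (top n : ℤ) + 1 - m := by push_cast; ring
        rw [h3, h1, add_zero, hs0] at h2
        · exact h2.symm
        · intro hmem
          rw [mem_Usq] at hmem
          simp only at hmem
          omega
        · intro hmem
          rw [mem_Usq] at hmem
          simp only at hmem
          omega
    rintro ⟨i, j⟩ hv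
    by_cases hj : j < 0 ∨ (top n : ℤ) < j
    · exact hrow j hj i
    push Not at hj
    rw [mem_Usq] at hv
    simp only at hv
    by_cases hl : 2 * i + j < 0
    · by_cases hi : i ≤ -((n : ℤ) + 1)
      · exact SQP_c_left h n i j hi
      · -- partial sums up to `i` vanish
        have : ∀ b : ℤ, -((n : ℤ) + 1) ≤ b → b ≤ i → SQP_c h n (b, j) = 0 := by
          intro b hb
          induction b, hb using Int.le_induction with
          | base =>
            intro _
            exact SQP_c_left h n _ j le_rfl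
          | succ m hm ih =>
            intro hmi
            rw [hc1, ih (by omega), hh0 m j, add_zero]
            · intro hmem
              rw [mem_Usq] at hmem
              simp only at hmem
              omega
            · intro hmem
              rw [mem_Usq] at hmem
              simp only at hmem
              omega
        exact this i (by omega) le_rfl
    · have hr : 2 * (n : ℤ) < 2 * i + j := by omega
      have h4 : SQP_c h n ((n : ℤ) + 1, j) = 0 := by
        have := hR ((top n : ℤ) + 1 - j).toNat (by omega)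
        have h5 : (top n : ℤ) + 1 - ((((top n : ℤ) + 1 - j).toNat : ℕ) : ℤ) = j := by omega
        rw [h5] at this
        exact this
      have hout' : ∀ a : ℤ, 2 * (n : ℤ) < 2 * a + j → ∀ b, a ≤ b → ((b, j) : V) ∉ Usq n := by
        intro a ha b hb hm
        rw [mem_Usq] at hm
        simp only at hm
        omega
      by_cases hi : i ≤ (n : ℤ) + 1
      · rw [← hconst j i (hout' i hr) ((n : ℤ) + 1) hi, h4]
      · rw [hconst j ((n : ℤ) + 1) (hout' _ (by omega)) i (by omega), h4]
  · rintro ⟨⟨⟨i, j⟩, b⟩, d⟩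
    cases b
    · fin_cases d
      · exact hh1 i j
      · exact hc3 i j
      · show s i j = SQP_c h n (i, j + 1) + SQP_c h n (i, j)
        rw [hc2, add_comm]
    · fin_cases d
      · show ψ (((i, j), true), 0) = SQP_c h n (i + 1, j + 1) + SQP_c h n (i, j + 1)
        rw [hT0, hh1, add_comm]
      · show ψ (((i, j), true), 1) = SQP_c h n (i, j + 1) + SQP_c h n (i + 1, j)
        rw [hT1, hc3, add_comm]
      · show ψ (((i, j), true), 2) = SQP_c h n (i + 1, j) + SQP_c h n (i + 1, j + 1)
        rw [hT2, hc2]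

end Pool.Agent.helper82.SC
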